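import Pool.Agent.KK.StmtsV

/-!
# Squad KK, row EXT: excursions downwards with two tokens
-/

set_option autoImplicit false

namespace Pool.Agent.KK.H79

open Pool.Agent.KK

/-- two classes with letter X and the word with Y there -/
theorem two_true {w : List Bool} {j : ℕ} (hw : wt w = j + 1) (hj : 1 ≤ j) :
    ∃ (c d : ℕ) (w₁ : List Bool), c < w.length ∧ d < w.length ∧ c ≠ d ∧ w₁.length = w.length ∧
      wt w₁ + 1 = j ∧ w₁.getD c true = false ∧ w₁.getD d true = false ∧
      ∀ i < w.length, w.getD i false = if i = c ∨ i = d then true else w₁.getD i false := by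
  have h1 : true ∈ w := List.count_pos_iff.1 (by unfold wt at hw; omega)
  obtain ⟨c, hc, hc1⟩ := List.mem_iff_getElem.1 h1
  have h2 : wt (w.set c false) = j := by
    unfold wt at hw ⊢
    rw [List.count_set hc, hc1, hw]
    simp
  have h3 : true ∈ w.set c false := List.count_pos_iff.1 (by unfold wt at h2; omega)
  obtain ⟨d, hd, hd1⟩ := List.mem_iff_getElem.1 h3
  have hd' : d < w.length := by rwa [List.length_set] at hd
  have hcd : c ≠ d := by
    rintro rfl
    rw [List.getElem_set_self] at hd1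
    exact absurd hd1 (by decide)
  have hwd : w[d] = true := by
    rw [List.getElem_set_ne hcd] at hd1
    exact hd1
  refine ⟨c, d, (w.set c false).set d false, hc, hd', hcd, ?_, ?_, ?_, ?_, ?_⟩
  · rw [List.length_set, List.length_set]
  · unfold wt at h2 ⊢
    rw [List.count_set hd, hd1, h2]
    simp
    omega
  · have hl : c < ((w.set c false).set d false).length := by
      rw [List.length_set, List.length_set]
      exact hc
    rw [List.getD_eq_getElem _ _ hl, List.getElem_set_ne hcd.symm, List.getElem_set_self]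
  · have hl : d < ((w.set c false).set d false).length := by
      rw [List.length_set, List.length_set]
      exact hd'
    rw [List.getD_eq_getElem _ _ hl, List.getElem_set_self]
  · intro i hi
    have hl : i < ((w.set c false).set d false).length := by
      rw [List.length_set, List.length_set]
      exact hi
    rw [List.getD_eq_getElem _ _ hi, List.getD_eq_getElem _ _ hl]
    by_cases hic : i = c
    · rw [if_pos (Or.inl hic)]
      subst hic
      exact hc1
    · by_cases hid : i = d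
      · rw [if_pos (Or.inr hid)]
        subst hid
        exact hwd
      · rw [if_neg (by tauto), List.getElem_set_ne (Ne.symm hid), List.getElem_set_ne (Ne.symm hic)]

/-- weight of several periods -/
theorem wt_per_mul (hPwt : PwtStmt) (w : List Bool) (a M : ℕ) :
    wt (per w a (w.length * M)) = wt w * M := by
  obtain ⟨p1, p2, p3, p4, _⟩ := hPwt
  induction M with
  | zero => simp [per, wt]
  | succ M ih =>
    rw [Nat.mul_succ, p4, Nat.mul_succ]
    have h1 : wt (per w a (w.length * M) ++ per w (a + w.length * M) w.length) =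
        wt (per w a (w.length * M)) + wt (per w (a + w.length * M) w.length) := by
      unfold wt
      rw [List.count_append]
    rw [h1, ih, p1]

/-- the context does not change after several periods -/
theorem per_mul (hPwt : PwtStmt) (w : List Bool) (a M m : ℕ) :
    per w (a + w.length * M) m = per w a m := by
  obtain ⟨p1, p2, p3, p4, _⟩ := hPwt
  induction M with
  | zero => rw [Nat.mul_zero, Nat.add_zero]
  | succ M ih => rw [Nat.mul_succ, ← Nat.add_assoc, p2, ih]

/-- EXT -/
theorem ext (hPut : PutStmt) (hPdt : PdtStmt) (hRel : RelStmt) (hCmo : CmoStmt)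
    (hPer : PerStmt) (hPwt : PwtStmt) : ExtStmt := by
  intro k hk
  refine ⟨100 * k ^ 2, ?_⟩
  intro V _ _ H X p j ε K K' z₁ z₂ w hj hjk hp hz hFW hT₁ hT₂ hK' hK hwl hww M
  obtain ⟨c, d, w₁, hc, hd, hcd, hl₁, hw₁, hg₁, hg₂, hgg⟩ := two_true hww hj
  rw [hwl] at hc hd hl₁ hgg
  have hpar : wt w₁ % 2 = p := by
    rw [← hp]
    omega
  have hkR : (3 : ℝ) ≤ (k : ℝ) := by exact_mod_cast hk
  have hk2 : (k : ℝ) ≤ (k : ℝ) ^ 2 := by nlinarith
  have hK1 : K' + 100 * (k : ℝ) ^ 2 ≤ K := by
    have := hK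
    push_cast at this
    exact this
  -- the three pieces
  obtain ⟨a₁, ha₁, hR₁⟩ := hPdt V H X k p j ε K (K' + 10 * k) w₁ w c d z₁ (by omega) hFW hl₁ hwl
    hc hd hcd hw₁ hpar hT₁ hg₁ hg₂ hgg (by nlinarith) (by positivity)
  obtain ⟨a₂, ha₂, hR₂, _⟩ := hPut V H X k p j ε K (K' + 10 * k) w₁ w c d z₂ (by omega) hFW hl₁
    hwl hc hd hcd hw₁ hpar hT₂ hg₁ hg₂ hgg (by nlinarith) (by positivity)
  obtain ⟨Kn, hKn⟩ := exists_nat_ge (K' + 10 * (k : ℝ))
  have hP := hPer V H X k p ε Kn w₁ 0 (k * M) (by omega) hl₁ hpar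
  have e1 : per w₁ (0 + k * M) (k - 1) = per w₁ 0 (k - 1) := by
    have := per_mul hPwt w₁ 0 M (k - 1)
    rwa [hl₁] at this
  have e2 : wt (per w₁ (0 + k - 1) (k * M)) = wt w₁ * M := by
    have := wt_per_mul hPwt w₁ (0 + k - 1) M
    rwa [hl₁] at this
  rw [e1, e2] at hP
  have hR₀ := hRel V H X k p ε Kn _ _ _ _ _ (K' + 10 * k) (by omega) hFW hP (by simpa using hKn)
  -- composition
  obtain ⟨_, hC, hMn⟩ := hCmo
  have hA := hC V H X {z₁} ∅ k p ε (K' + 10 * k) (K' + 5 * k) (2 * k) (2 * k * 0) _ _ _ _ _ _ _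
    (by omega) hR₁ hR₀ (by simp) (by push_cast; simp; nlinarith)
  have hR₂' := hMn V H X {z₂} k p ε ε (K' + 10 * k) (K' + 5 * k) (2 * k) (2 * k) _ _ _ _ hR₂
    le_rfl (by nlinarith) le_rfl
  have hB := hC V H X ({z₁} ∪ ∅) {z₂} k p ε (K' + 5 * k) K' (2 * k + 2 * k * 0) (2 * k)
    _ _ _ _ _ _ _ (by omega) hA hR₂' (by simpa using hz)
    (by push_cast; simp; nlinarith)
  refine ⟨4 * k + k * M + 4 * k, a₁ + wt w₁ * M + a₂, ?_, ?_, ?_, ?_⟩
  · have : 4 * k + k * M + 4 * k = k * (M + 8) := by ring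
    rw [this, Nat.mul_mod_right]
  · nlinarith
  · have hw₁' : (wt w₁ : ℤ) = j - 1 := by
      have : ((wt w₁ + 1 : ℕ) : ℤ) = j := by rw [hw₁]
      push_cast at this
      linarith
    have e3 : (k : ℤ) * ((a₁ + wt w₁ * M + a₂ : ℕ) : ℤ) -
        (j + 1) * ((4 * k + k * M + 4 * k : ℕ) : ℤ) + 2 * k * M =
        k * (a₁ + a₂) - 8 * k * (j + 1) := by
      push_cast
      rw [hw₁']
      ring
    rw [e3]
    have h1 : (a₁ : ℤ) ≤ 4 * k := by exact_mod_cast ha₁
    have h2 : (a₂ : ℤ) + 1 ≤ 4 * k := by exact_mod_cast ha₂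
    have h3 : (j : ℤ) + 1 ≤ k := by exact_mod_cast hjk
    have h4 : (0 : ℤ) ≤ a₁ := Int.natCast_nonneg _
    have h5 : (0 : ℤ) ≤ a₂ := Int.natCast_nonneg _
    have h6 : (0 : ℤ) ≤ j := Int.natCast_nonneg _
    have h7 : (0 : ℤ) ≤ k := Int.natCast_nonneg _
    rw [abs_le]
    push_cast
    constructor
    · nlinarith
    · nlinarith
  · have hfin := hMn V H X ({z₁} ∪ ∅ ∪ {z₂}) k p ε ε K' K' (2 * k + 2 * k * 0 + 2 * k)
      (100 * k ^ 2) _ _ _ _ hB le_rfl le_rfl (by nlinarith)
    have hset : ({z₁} ∪ ∅ ∪ {z₂} : Finset V) = {z₁, z₂} := by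
      ext x
      simp
    rw [hset] at hfin
    exact hfin

end Pool.Agent.KK.H79
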